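import Pool.Agent.StripChord.Final

/-! # An upper bound for strip packings at every width

For every width `w ≥ 2` no packing of unit discs in the strip of width `w` has a density larger than
Molnar's expression with the arc `√(4 - t²)` replaced by its chord `2 - t / √3`. -/

namespace Pool.Agent.Results.MP_051ec8_co.ChordBound

open Pool.Agent.StripNear Pool.Agent.StripChord

theorem result (w : ℝ) (hw : 2 ≤ w) (C : Set E2) (hC : IsStripPacking w C) (O : E2) (d : ℝ)
    (hd : HasDensity w C O d) : d ≤ chordDensity w :=
  chord_bound hw hC hd

end Pool.Agent.Results.MP_051ec8_co.ChordBound
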